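import Pool.Agent.Helper79.NC.Spec2
import Pool.Agent.Helper74.NC.Iso
import Pool.Agent.Helper74.NC.Jacobi

/-!
# No conjugate points, from the local convexity (module M7 of `MP_4787eb_gt`)
-/

set_option maxSynthPendingDepth 3

namespace Pool.Agent.Helper79.NC

open scoped ContDiff Topology
open Set Filter

theorem jacobi_contDiff {g : E3 → E3 →L[ℝ] E3 →L[ℝ] ℝ} {c J : ℝ → E3}
    (hJ : IsJacobiField g c J) : ContDiff ℝ ∞ J := by
  obtain ⟨ε, V, hε, hV, -, -, hJV⟩ := hJ
  set U : Set (ℝ × ℝ) := Ioo (-ε) ε ×ˢ univ with hU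
  have hUo : IsOpen U := isOpen_Ioo.prod isOpen_univ
  set W : ℝ × ℝ → E3 := fun p => V p.1 p.2 with hWdef
  have hWa : ∀ p ∈ U, ContDiffAt ℝ ∞ W p := fun p hp => hV.contDiffAt (hUo.mem_nhds hp)
  have h0U : ∀ t : ℝ, ((0 : ℝ), t) ∈ U := fun t => ⟨⟨by simpa using hε, hε⟩, mem_univ _⟩
  have hJeq : J = fun t => fderiv ℝ W (0, t) (1, 0) := by
    funext t
    rw [hJV t]
    have h1 : HasDerivAt (fun s : ℝ => (s, t)) ((1, 0) : ℝ × ℝ) 0 :=
      (hasDerivAt_id 0).prodMk (hasDerivAt_const 0 t)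
    have h2 := HasFDerivAt.comp_hasDerivAt (l := W) (f := fun s : ℝ => (s, t)) 0
      ((hWa (0, t) (h0U t)).differentiableAt (by simp)).hasFDerivAt h1
    exact h2.deriv
  rw [hJeq, contDiff_iff_contDiffAt]
  intro t
  have h1 : ContDiffAt ℝ ∞ (fderiv ℝ W) (0, t) :=
    (hWa (0, t) (h0U t)).fderiv_right (m := ∞) (by simp)
  have h2 : ContDiffAt ℝ ∞ (fun t : ℝ => ((0 : ℝ), t)) t := contDiffAt_const.prodMk contDiffAt_id
  have h3 : ContDiffAt ℝ ∞ (fun t : ℝ => fderiv ℝ W (0, t)) t := h1.comp t h2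
  exact h3.clm_apply contDiffAt_const

theorem ss_of_one_le {x : ℝ} (hx : 1 ≤ x) : ss x = 0 := by
  unfold ss
  rw [if_neg (by linarith), if_pos hx]

theorem corr_congr_fst (T : TubeData) {x x' : E3} (h : x.1 = x'.1) (ξ j : E3) :
    corr T x ξ j = corr T x' ξ j := by
  unfold corr
  rw [h]

theorem corr_eq_zero (T : TubeData) {x : E3} (hx : 1 / 2 < ‖x.1‖) (ξ j : E3) :
    corr T x ξ j = 0 := by
  have hu : 1 / 4 < Complex.normSq x.1 := by
    rw [Complex.normSq_eq_norm_sq]
    nlinarith [norm_nonneg x.1]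
  have h1 : gauge (Complex.normSq x.1) = 0 := by
    unfold gauge
    apply ss_of_one_le
    have h2 : (1 / 2 : ℝ) ≤ √(Complex.normSq x.1) := by
      apply Real.le_sqrt_of_sq_le
      linarith
    linarith
  have h2 : ss ((Complex.normSq x.1 - T.u1) / (T.u2 - T.u1)) = 0 := by
    apply ss_of_one_le
    have h3 : 0 < T.u2 - T.u1 := by linarith [T.u12]
    rw [le_div_iff₀ h3]
    have := T.u3_lt
    have := T.u22
    have := T.u23
    linarith
  unfold corr
  rw [h1, h2]
  ring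

section Action

variable {Γ : Type} [Group Γ] [MulAction Γ E3]

theorem corr_welldef (T : TubeData) (hΓ : IsTubeLattice Γ) {γ γ' : Γ} {x : E3}
    (h : ‖(γ • x).1‖ < 1) (h' : ‖(γ' • x).1‖ < 1) (ξ j : E3) :
    corr T (γ' • x) (fderiv ℝ (fun y : E3 => γ' • y) x ξ) (fderiv ℝ (fun y : E3 => γ' • y) x j)
      = corr T (γ • x) (fderiv ℝ (fun y : E3 => γ • y) x ξ)
          (fderiv ℝ (fun y : E3 => γ • y) x j) := by
  have h1 : (γ' * γ⁻¹) • (γ • x) = γ' • x := by
    rw [smul_smul]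
    simp
  obtain ⟨ℓ, hℓ⟩ := hΓ.tube (γ' * γ⁻¹) (γ • x) h (by rw [h1]; exact h')
  have h2 : (fun y : E3 => γ' • y) = fun y : E3 => γ • y + ((0, ℓ) : E3) := by
    funext y
    have h3 : γ' • y = (γ' * γ⁻¹) • (γ • y) := by
      rw [smul_smul]
      simp
    rw [h3, hℓ]
    ext <;> simp
  have h4 : fderiv ℝ (fun y : E3 => γ' • y) x = fderiv ℝ (fun y : E3 => γ • y) x := by
    rw [h2, fderiv_add_const]
  rw [h4]
  apply corr_congr_fst
  have h5 : γ' • x = γ • x + ((0, ℓ) : E3) := congrFun h2 x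
  rw [h5]
  simp

/-- The global correction along a curve. -/
noncomputable def gcorr (Γ : Type) [Group Γ] [MulAction Γ E3] (T : TubeData) (c J : ℝ → E3)
    (t : ℝ) : ℝ := by
  classical
  exact if h : ∃ γ : Γ, ‖(γ • c t).1‖ < 1 then
    corr T (h.choose • c t) (fderiv ℝ (fun y : E3 => h.choose • y) (c t) (deriv c t))
      (fderiv ℝ (fun y : E3 => h.choose • y) (c t) (J t))
  else 0

theorem gcorr_eq (T : TubeData) (hΓ : IsTubeLattice Γ) (c J : ℝ → E3) {t : ℝ} {γ : Γ}
    (h : ‖(γ • c t).1‖ < 1) : gcorr Γ T c J t =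
      corr T (γ • c t) (fderiv ℝ (fun y : E3 => γ • y) (c t) (deriv c t))
      (fderiv ℝ (fun y : E3 => γ • y) (c t) (J t)) := by
  classical
  have h1 : ∃ γ : Γ, ‖(γ • c t).1‖ < 1 := ⟨γ, h⟩
  unfold gcorr
  rw [dif_pos h1]
  exact corr_welldef T hΓ h h1.choose_spec _ _

theorem gcorr_outer (T : TubeData) (c J : ℝ → E3) {t : ℝ}
    (h : ∀ γ : Γ, 1 / 2 < ‖(γ • c t).1‖) : gcorr Γ T c J t = 0 := by
  classical
  unfold gcorr
  split_ifs with h1
  · exact corr_eq_zero T (h _) _ _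
  · rfl

/-- The local statement, for the global correction. -/
theorem gcorr_local (hL : LocalConvexity) (hI : IsoJacobi) (T : TubeData)
    {g : E3 → E3 →L[ℝ] E3 →L[ℝ] ℝ} (hD : GlobalData Γ T g) {c J : ℝ → E3} (hc : IsGeodesic g c)
    (hJ : IsJacobiField g c J) (h0 : ∀ t, g (c t) (J t) (deriv c t) = 0) (t₀ : ℝ) :
    (∃ d : ℝ, 0 ≤ d ∧ HasDerivAt (fun t =>
        1 / 2 * deriv (fun τ => g (c τ) (J τ) (J τ)) t - gcorr Γ T c J t) d t₀) ∧
    ∃ K : ℝ, ∀ᶠ t in 𝓝 t₀, |gcorr Γ T c J t| ≤ K * ‖J t‖ ^ 2 := by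
  have hcc : Continuous c := hc.smooth.continuous
  by_cases hex : ∃ γ : Γ, ‖(γ • c t₀).1‖ < 1
  · obtain ⟨γ, hγ⟩ := hex
    have hγs : ContDiff ℝ ∞ (fun y : E3 => γ • y) := hD.presents.smooth γ
    have hγs' : ContDiff ℝ ∞ (fun y : E3 => γ⁻¹ • y) := hD.presents.smooth γ⁻¹
    have hγd : Differentiable ℝ (fun y : E3 => γ • y) := hγs.differentiable (by simp)
    have hcd : Differentiable ℝ c := hc.smooth.differentiable (by simp)
    have hder : ∀ t, deriv (fun t => γ • c t) t
        = fderiv ℝ (fun y : E3 => γ • y) (c t) (deriv c t) := fun t =>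
      ((hγd (c t)).hasFDerivAt.comp_hasDerivAt t (hcd t).hasDerivAt).deriv
    have hgeo : IsGeodesic g (fun t => γ • c t) :=
      isoGeodesic g (fun y => γ • y) (fun y => γ⁻¹ • y) hD.presents.metric hγs hγs'
        (fun x => inv_smul_smul γ x) (fun x => smul_inv_smul γ x) (hD.presents.isometry γ) c hc
    have hjac : IsJacobiField g (fun t => γ • c t)
        (fun t => fderiv ℝ (fun y : E3 => γ • y) (c t) (J t)) :=
      hI g (fun y => γ • y) (fun y => γ⁻¹ • y) hD.presents.metric hγs hγs'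
        (fun x => inv_smul_smul γ x) (fun x => smul_inv_smul γ x) (hD.presents.isometry γ) c J
        hc hJ
    have horth : ∀ᶠ t in 𝓝 t₀, g (γ • c t) (fderiv ℝ (fun y : E3 => γ • y) (c t) (J t))
        (deriv (fun t => γ • c t) t) = 0 := by
      refine Eventually.of_forall fun t => ?_
      rw [hder, hD.presents.isometry γ, h0]
    have hmet : ∀ᶠ x in 𝓝 (γ • c t₀), g x = tubeMetric T.F T.σ x := by
      have h1 : IsOpen {x : E3 | ‖x.1‖ < 1} :=
        isOpen_lt (continuous_norm.comp continuous_fst) continuous_const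
      filter_upwards [h1.mem_nhds hγ] with x hx using hD.tube x hx
    obtain ⟨⟨d, hd, hder2⟩, K, hK⟩ := hL T g (fun t => γ • c t)
      (fun t => fderiv ℝ (fun y : E3 => γ • y) (c t) (J t)) hD.presents.metric hgeo hjac t₀
      horth hmet
    -- near `t₀`, the curve stays in the same tube
    have hnear : ∀ᶠ t in 𝓝 t₀, ‖(γ • c t).1‖ < 1 := by
      have h1 : Continuous (fun t => ‖(γ • c t).1‖) :=
        continuous_norm.comp (continuous_fst.comp (hγs.continuous.comp hcc))
      exact (h1.tendsto t₀).eventually_lt_const hγ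
    have hiso : (fun τ => g (γ • c τ) (fderiv ℝ (fun y : E3 => γ • y) (c τ) (J τ))
        (fderiv ℝ (fun y : E3 => γ • y) (c τ) (J τ))) = fun τ => g (c τ) (J τ) (J τ) := by
      funext τ
      exact hD.presents.isometry γ _ _ _
    refine ⟨⟨d, hd, ?_⟩, ?_⟩
    · refine hder2.congr_of_eventuallyEq ?_
      filter_upwards [hnear] with t ht
      simp only [hiso]
      rw [gcorr_eq T hD.lattice c J ht, hder]
    · have hb : Continuous (fun t => ‖fderiv ℝ (fun y : E3 => γ • y) (c t)‖) :=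
        continuous_norm.comp ((hγs.continuous_fderiv (by simp)).comp hcc)
      set M : ℝ := ‖fderiv ℝ (fun y : E3 => γ • y) (c t₀)‖ + 1 with hM
      have hb2 : ∀ᶠ t in 𝓝 t₀, ‖fderiv ℝ (fun y : E3 => γ • y) (c t)‖ < M :=
        (hb.tendsto t₀).eventually_lt_const (by rw [hM]; linarith)
      refine ⟨|K| * M ^ 2, ?_⟩
      filter_upwards [hnear, hK, hb2] with t h1 h2 h3
      rw [gcorr_eq T hD.lattice c J h1]
      rw [hder] at h2
      have h4 : ‖fderiv ℝ (fun y : E3 => γ • y) (c t) (J t)‖ ≤ M * ‖J t‖ :=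
        (ContinuousLinearMap.le_opNorm _ _).trans
          (mul_le_mul_of_nonneg_right h3.le (norm_nonneg _))
      calc |corr T (γ • c t) (fderiv ℝ (fun y : E3 => γ • y) (c t) (deriv c t))
            (fderiv ℝ (fun y : E3 => γ • y) (c t) (J t))|
          ≤ K * ‖fderiv ℝ (fun y : E3 => γ • y) (c t) (J t)‖ ^ 2 := h2
        _ ≤ |K| * ‖fderiv ℝ (fun y : E3 => γ • y) (c t) (J t)‖ ^ 2 := by
          gcongr
          exact le_abs_self K
        _ ≤ |K| * (M * ‖J t‖) ^ 2 := by gcongr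
        _ = |K| * M ^ 2 * ‖J t‖ ^ 2 := by ring
  · -- the outer part
    push Not at hex
    have hout : c t₀ ∈ {x : E3 | ∀ γ : Γ, 1 / 2 < ‖(γ • x).1‖} := by
      intro γ
      have := hex γ
      linarith
    have hev : ∀ᶠ x in 𝓝 (c t₀), ∀ γ : Γ, 1 / 2 < ‖(γ • x).1‖ :=
      hD.isOpen_outer.mem_nhds hout
    have hevt : ∀ᶠ t in 𝓝 t₀, ∀ γ : Γ, 1 / 2 < ‖(γ • c t).1‖ :=
      (hcc.tendsto t₀).eventually hev
    have hone : ∀ x : E3, (∀ γ : Γ, 1 / 2 < ‖(γ • x).1‖) → 1 / 2 < ‖x.1‖ := by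
      intro x hx
      have := hx 1
      rwa [one_smul] at this
    have hmet : ∀ᶠ x in 𝓝 (c t₀), g x = tubeMetric T.F T.σ x := by
      filter_upwards [hev] with x hx
      refine ContinuousLinearMap.ext fun v => ContinuousLinearMap.ext fun w => ?_
      rw [hD.outer x hx v w, tubeMetric_apply]
      have hu : 1 / 4 < Complex.normSq x.1 := by
        rw [Complex.normSq_eq_norm_sq]
        nlinarith [norm_nonneg x.1, hone x hx]
      have hu3 : T.u3 ≤ Complex.normSq x.1 := by linarith [T.u3_lt]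
      have h1 : T.F x.1 = 1 + Complex.normSq x.1 := by
        unfold TubeData.F
        rw [T.hyp1 _ hu3]
        simp
      rw [h1, T.hyp2 _ hu3]
      unfold hypForm
      ring
    obtain ⟨⟨d, hd, hder2⟩, K, hK⟩ := hL T g c J hD.presents.metric hc hJ t₀
      (Eventually.of_forall h0) hmet
    refine ⟨⟨d, hd, ?_⟩, 0, ?_⟩
    · refine hder2.congr_of_eventuallyEq ?_
      filter_upwards [hevt] with t ht
      rw [gcorr_outer T c J ht, corr_eq_zero T (hone _ ht)]
    · filter_upwards [hevt] with t ht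
      rw [gcorr_outer T c J ht]
      simp

/-- No conjugate points, for `a < b`. -/
theorem globalNoConj_aux (hL : LocalConvexity) (hA : JacobiAffine) (hI : IsoJacobi)
    (T : TubeData) {g : E3 → E3 →L[ℝ] E3 →L[ℝ] ℝ} (hD : GlobalData Γ T g) {c J : ℝ → E3}
    (hc : IsGeodesic g c) (hJ : IsJacobiField g c J) {a b : ℝ} (hab : a < b) (ha : J a = 0)
    (hb : J b = 0) : ∀ t, J t = 0 := by
  have hg := hD.presents.metric
  have hcc : Continuous c := hc.smooth.continuous
  have hJs : ContDiff ℝ ∞ J := jacobi_contDiff hJ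
  -- orthogonality
  have h0 : ∀ t, g (c t) (J t) (deriv c t) = 0 := by
    obtain ⟨α, β, hαβ⟩ := hA g hg c J hc hJ
    have h1 := hαβ a
    have h2 := hαβ b
    rw [ha] at h1
    rw [hb] at h2
    simp only [map_zero, zero_apply] at h1 h2
    have h3 : α * (b - a) = 0 := by linarith
    have h4 : α = 0 := by
      rcases mul_eq_zero.1 h3 with h | h
      · exact h
      · linarith
    have h5 : β = 0 := by rw [h4] at h1; linarith
    intro t
    rw [hαβ t, h4, h5]
    ring
  -- the squared length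
  set f : ℝ → ℝ := fun τ => g (c τ) (J τ) (J τ) with hf
  have hfs : ContDiff ℝ ∞ f := by
    have h1 : ContDiff ℝ ∞ (fun τ => g (c τ)) := hg.smooth.comp hc.smooth
    exact (h1.clm_apply hJs).clm_apply hJs
  have hfd : Differentiable ℝ f := hfs.differentiable (by simp)
  have hfnn : ∀ t, 0 ≤ f t := by
    intro t
    by_cases h : J t = 0
    · simp [hf, h]
    · exact (hg.pos _ _ h).le
  have hloc := gcorr_local hL hI T hD hc hJ h0
  set D : ℝ → ℝ := fun t => 1 / 2 * deriv f t - gcorr Γ T c J t with hDdef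
  have hDdiff : Differentiable ℝ D := fun t => by
    obtain ⟨⟨d, -, hd⟩, -⟩ := hloc t
    exact hd.differentiableAt
  have hDmono : Monotone D := by
    apply monotone_of_deriv_nonneg hDdiff
    intro t
    obtain ⟨⟨d, hd0, hd⟩, -⟩ := hloc t
    have h1 : HasDerivAt D d t := hd
    rw [h1.deriv]
    exact hd0
  have hzero : ∀ t, J t = 0 → D t = 0 := by
    intro t ht
    have h1 : deriv f t = 0 := by
      apply IsLocalMin.deriv_eq_zero
      refine Eventually.of_forall fun s => ?_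
      have : f t = 0 := by simp [hf, ht]
      rw [this]
      exact hfnn s
    have h2 : gcorr Γ T c J t = 0 := by
      obtain ⟨-, K, hK⟩ := hloc t
      have h3 := hK.self_of_nhds
      rw [ht] at h3
      simp only [norm_zero, ne_eq, OfNat.ofNat_ne_zero, not_false_eq_true, zero_pow,
        mul_zero] at h3
      exact abs_nonpos_iff.1 h3
    simp only [hDdef]
    rw [h1, h2]
    ring
  have hD0 : ∀ t ∈ Icc a b, D t = 0 := by
    intro t ht
    apply le_antisymm
    · rw [← hzero b hb]; exact hDmono ht.2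
    · rw [← hzero a ha]; exact hDmono ht.1
  have hdf : ∀ t ∈ Icc a b, deriv f t = 2 * gcorr Γ T c J t := by
    intro t ht
    have := hD0 t ht
    simp only [hDdef] at this
    linarith
  -- uniform bound
  have hunif : ∃ K : ℝ, ∀ t ∈ Icc a b, |gcorr Γ T c J t| ≤ K * ‖J t‖ ^ 2 := by
    refine isCompact_Icc.induction_on
      (p := fun s => ∃ K : ℝ, ∀ t ∈ s, |gcorr Γ T c J t| ≤ K * ‖J t‖ ^ 2) ?_ ?_ ?_ ?_
    · exact ⟨0, fun t ht => absurd ht (notMem_empty t)⟩
    · rintro s s' hs ⟨K, hK⟩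
      exact ⟨K, fun t ht => hK t (hs ht)⟩
    · rintro s s' ⟨K, hK⟩ ⟨K', hK'⟩
      refine ⟨max K K', fun t ht => ?_⟩
      rcases ht with ht | ht
      · exact (hK t ht).trans (mul_le_mul_of_nonneg_right (le_max_left _ _) (by positivity))
      · exact (hK' t ht).trans (mul_le_mul_of_nonneg_right (le_max_right _ _) (by positivity))
    · intro t _
      obtain ⟨-, K, hK⟩ := hloc t
      exact ⟨_, mem_nhdsWithin_of_mem_nhds hK, K, fun s hs => hs⟩
  obtain ⟨K, hK⟩ := hunif
  obtain ⟨m, hm, hlow⟩ := exists_pos_lower hg hcc a b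
  have hbound : ∀ t ∈ Icc a b, ‖deriv f t‖ ≤ (2 * |K| / m) * ‖f t‖ := by
    intro t ht
    rw [hdf t ht, Real.norm_eq_abs, Real.norm_eq_abs, abs_mul, abs_two, abs_of_nonneg (hfnn t)]
    have h1 := hK t ht
    have h2 : m * ‖J t‖ ^ 2 ≤ f t := hlow t ht (J t)
    have h3 : ‖J t‖ ^ 2 ≤ f t / m := by rw [le_div_iff₀ hm]; linarith
    calc 2 * |gcorr Γ T c J t| ≤ 2 * (K * ‖J t‖ ^ 2) := by linarith
      _ ≤ 2 * (|K| * ‖J t‖ ^ 2) := by
        gcongr
        exact le_abs_self K
      _ ≤ 2 * (|K| * (f t / m)) := by gcongr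
      _ = (2 * |K| / m) * f t := by ring
  have hfzero : ∀ t ∈ Icc a b, f t = 0 := by
    intro t ht
    have := norm_le_gronwallBound_of_norm_deriv_right_le (f := f) (f' := deriv f) (δ := 0)
      (K := 2 * |K| / m) (ε := 0) (a := a) (b := b) hfd.continuous.continuousOn
      (fun x _ => (hfd x).hasDerivAt.hasDerivWithinAt)
      (by simp [hf, ha]) (fun x hx => by simpa using hbound x ⟨hx.1, hx.2.le⟩) t ht
    rw [gronwallBound_ε0] at this
    simpa using this
  have hJzero : ∀ t ∈ Ioo a b, J t = 0 := by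
    intro t ht
    by_contra hne
    have h1 := hg.pos (c t) (J t) hne
    have h2 : f t = 0 := hfzero t ⟨ht.1.le, ht.2.le⟩
    simp only [hf] at h2
    linarith
  exact jacobiUnique g hg c J hc hJ a b hab hJzero

end Action

theorem globalNoConj (hL : LocalConvexity) (hA : JacobiAffine) (hI : IsoJacobi) :
    GlobalNoConj := by
  intro Γ _ _ T g hD c J hc _ hJ a b hab ha hb
  rcases lt_or_gt_of_ne hab with h | h
  · exact globalNoConj_aux hL hA hI T hD hc hJ h ha hb
  · exact globalNoConj_aux hL hA hI T hD hc hJ h hb ha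

end Pool.Agent.Helper79.NC
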